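import Pool.Agent.H82.NTB.Stmts

set_option autoImplicit false

namespace Pool.NTB

open Pool.NET

theorem ivw_aux {P a b Z s : ℤ} (h : |P - 4 * (Z + s)| ≤ |P - 4 * (a + b)|) :
    (P - 4 * (Z + s) ≤ P - 4 * (a + b) ∧ -(P - 4 * (Z + s)) ≤ P - 4 * (a + b)) ∨
      (P - 4 * (Z + s) ≤ -(P - 4 * (a + b)) ∧ -(P - 4 * (Z + s)) ≤ -(P - 4 * (a + b))) := by
  rcases abs_cases (P - 4 * (Z + s)) with h1 | h1 <;>
    rcases abs_cases (P - 4 * (a + b)) with h2 | h2 <;> omega

theorem ivw_thm : IVW_S := by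
  intro p e g h u hp t ht w Z s hs hs' hab
  obtain ⟨hq, hg, hgW, hWe, heM, hMS⟩ := hp
  obtain ⟨⟨c, r⟩, k⟩ := w
  have h1 := ht ((c, r), k)
  have h0 := ht (pv2 h u ((c, r), k))
  have h2 := ivw_aux hab
  clear hab
  have hr : p.S * (r + 1) = p.S * r + p.S := by ring
  have hr' : p.S * (r - 1) = p.S * r - p.S := by ring
  cases k
  case NW =>
    by_cases hu : u (c, r)
    · simp only [prW, jl, jh, pv2, if_pos hu, fy] at h0 h2 ⊢
      omega
    · simp only [prW, jl, jh, pv2, if_neg hu, fy] at h0 h2 ⊢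
      omega
  case SE =>
    by_cases hu : u (c, r - 1)
    · simp only [prW, jl, jh, pv2, if_pos hu, fy] at h0 h2 ⊢
      omega
    · simp only [prW, jl, jh, pv2, if_neg hu, fy] at h0 h2 ⊢
      omega
  case J1 =>
    by_cases hu : h (c, r)
    · simp only [prW, jl, jh, pv2, if_pos hu, fy] at h0 h2 ⊢
      omega
    · simp only [prW, jl, jh, pv2, if_neg hu, fy] at h0 h2 ⊢
      omega
  case J3 =>
    by_cases hu : h (c - 1, r)
    · simp only [prW, jl, jh, pv2, if_pos hu, fy] at h0 h2 ⊢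
      omega
    · simp only [prW, jl, jh, pv2, if_neg hu, fy] at h0 h2 ⊢
      omega
  all_goals
    simp only [prW, jl, jh, pv2, fy] at h0 h2 ⊢
    omega

end Pool.NTB
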